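import Mathlib
import Pool.Prelude.Def_F_7a643cbe

/-!
# Runs of `k` consecutive integers each having a prime factor exceeding `k`: `k ≤ 8 n ^ (2 / 5)`

Let `q = ⌊√k⌋`, let `s` be least with `q s ^ 2 > m`, and let `t` be greatest with
`q s ^ 2 - q t ^ 2 > m`. If `k ^ 5 > 8 ^ 5 m ^ 2` (and `m ≥ k`) then `q (s - t) (s + t)` lies in
`(m, m + k]`, and all its prime factors are at most `k`.
-/

set_option autoImplicit false

namespace Pool.Agent.Results.MP_b30ba5_nt.TwoFifths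

/-- The arithmetic heart: if `k ^ 5 > 8 ^ 5 m ^ 2` and `k ≤ m` there is a number `N` in
`(m, m + k]` all of whose prime factors are at most `k`. -/
theorem exists_smooth (m k : ℕ) (hkm : k ≤ m) (h : 32768 * m ^ 2 < k ^ 5) :
    ∃ N, m < N ∧ N ≤ m + k ∧ ∀ p : ℕ, p.Prime → p ∣ N → p ≤ k := by
  have hk33 : 33 ≤ k := by
    by_contra hlt
    push Not at hlt
    have h1 : k ^ 5 ≤ 32 ^ 3 * k ^ 2 := by
      have : k ^ 3 ≤ 32 ^ 3 := Nat.pow_le_pow_left (by omega) 3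
      calc k ^ 5 = k ^ 3 * k ^ 2 := by ring
        _ ≤ 32 ^ 3 * k ^ 2 := Nat.mul_le_mul_right _ this
    have h2 : k ^ 2 ≤ m ^ 2 := Nat.pow_le_pow_left hkm 2
    omega
  set q := Nat.sqrt k with hq
  have hq1 : q * q ≤ k := Nat.sqrt_le k
  have hq2 : k < (q + 1) * (q + 1) := Nat.lt_succ_sqrt k
  have hq5 : 5 ≤ q := by
    by_contra hlt
    push Not at hlt
    have : (q + 1) * (q + 1) ≤ 5 * 5 := Nat.mul_le_mul (by omega) (by omega)
    omega
  have hqpos : 0 < q := by omega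
  set a := Nat.sqrt (m / q) with ha
  have ha1 : a * a ≤ m / q := Nat.sqrt_le _
  have ha2 : m / q < (a + 1) * (a + 1) := Nat.lt_succ_sqrt _
  have ha3 : q * (a * a) ≤ m := by
    calc q * (a * a) ≤ q * (m / q) := Nat.mul_le_mul_left _ ha1
      _ ≤ m := Nat.mul_div_le m q
  have ha4 : m < q * ((a + 1) * (a + 1)) := by
    have := Nat.lt_mul_div_succ m hqpos
    calc m < q * (m / q + 1) := this
      _ ≤ q * ((a + 1) * (a + 1)) := Nat.mul_le_mul_left _ ha2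
  obtain ⟨r, hr⟩ : ∃ r, q * ((a + 1) * (a + 1)) = m + 1 + r := ⟨_, (Nat.add_sub_of_le ha4).symm⟩
  set t := Nat.sqrt (r / q) with ht
  have ht1 : t * t ≤ r / q := Nat.sqrt_le _
  have ht2 : r / q < (t + 1) * (t + 1) := Nat.lt_succ_sqrt _
  have ht3 : q * (t * t) ≤ r := by
    calc q * (t * t) ≤ q * (r / q) := Nat.mul_le_mul_left _ ht1
      _ ≤ r := Nat.mul_div_le r q
  have ht4 : r < q * ((t + 1) * (t + 1)) := by
    have := Nat.lt_mul_div_succ r hqpos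
    calc r < q * (r / q + 1) := this
      _ ≤ q * ((t + 1) * (t + 1)) := Nat.mul_le_mul_left _ ht2
  -- `t ^ 2 ≤ 2 a`
  have ht5 : t * t ≤ 2 * a := by
    have h1 : r < q * (2 * a + 1) := by nlinarith
    have h2 : q * (t * t) < q * (2 * a + 1) := lt_of_le_of_lt ht3 h1
    have := Nat.lt_of_mul_lt_mul_left h2
    omega
  -- `q ^ 2 a ^ 4 ≤ m ^ 2`
  have hm2 : q ^ 2 * a ^ 4 ≤ m ^ 2 := by
    have := Nat.pow_le_pow_left ha3 2
    calc q ^ 2 * a ^ 4 = (q * (a * a)) ^ 2 := by ring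
      _ ≤ m ^ 2 := this
  have h65 : 5 * (q + 1) ≤ 6 * q := by omega
  have hk5 : k ^ 5 ≤ (q + 1) ^ 10 := by
    calc k ^ 5 ≤ ((q + 1) * (q + 1)) ^ 5 := Nat.pow_le_pow_left hq2.le 5
      _ = (q + 1) ^ 10 := by ring
  have h10 : 5 ^ 10 * (q + 1) ^ 10 ≤ 6 ^ 10 * q ^ 10 := by
    calc 5 ^ 10 * (q + 1) ^ 10 = (5 * (q + 1)) ^ 10 := by ring
      _ ≤ (6 * q) ^ 10 := Nat.pow_le_pow_left h65 10
      _ = 6 ^ 10 * q ^ 10 := by ring
  -- `2 t + 1 ≤ q`
  have ht6 : 2 * t + 1 ≤ q := by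
    by_contra hlt
    push Not at hlt
    have hqt : q ≤ 2 * t := by omega
    have h1 : q ^ 8 ≤ 256 * t ^ 8 := by
      calc q ^ 8 ≤ (2 * t) ^ 8 := Nat.pow_le_pow_left hqt 8
        _ = 256 * t ^ 8 := by ring
    have h2 : t ^ 8 ≤ 16 * a ^ 4 := by
      calc t ^ 8 = (t * t) ^ 4 := by ring
        _ ≤ (2 * a) ^ 4 := Nat.pow_le_pow_left ht5 4
        _ = 16 * a ^ 4 := by ring
    have h3 : q ^ 10 ≤ 4096 * m ^ 2 := by
      calc q ^ 10 = q ^ 2 * q ^ 8 := by ring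
        _ ≤ q ^ 2 * (256 * (16 * a ^ 4)) :=
            Nat.mul_le_mul_left _ (h1.trans (Nat.mul_le_mul_left _ h2))
        _ = 4096 * (q ^ 2 * a ^ 4) := by ring
        _ ≤ 4096 * m ^ 2 := Nat.mul_le_mul_left _ hm2
    have h4 : 8 * q ^ 10 < (q + 1) ^ 10 := by
      calc 8 * q ^ 10 ≤ 32768 * m ^ 2 := by omega
        _ < k ^ 5 := h
        _ ≤ (q + 1) ^ 10 := hk5
    omega
  -- `4 a ≤ k`
  have ha5 : 4 * a ≤ k := by
    by_contra hlt
    push Not at hlt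
    have h1 : k ^ 4 ≤ 256 * a ^ 4 := by
      calc k ^ 4 ≤ (4 * a) ^ 4 := Nat.pow_le_pow_left hlt.le 4
        _ = 256 * a ^ 4 := by ring
    have h2 : 2 * q ^ 2 ≥ k := by nlinarith
    have h3 : k ^ 5 ≤ 512 * m ^ 2 := by
      calc k ^ 5 = k * k ^ 4 := by ring
        _ ≤ (2 * q ^ 2) * (256 * a ^ 4) := Nat.mul_le_mul h2 h1
        _ = 512 * (q ^ 2 * a ^ 4) := by ring
        _ ≤ 512 * m ^ 2 := Nat.mul_le_mul_left _ hm2
    omega
  have hqk : 5 * q ≤ k := le_trans (Nat.mul_le_mul_right q hq5) hq1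
  refine ⟨q * ((a + 1) * (a + 1)) - q * (t * t), ?_, ?_, ?_⟩
  · omega
  · have h1 : r - q * (t * t) + 1 ≤ q * (2 * t + 1) := by
      have : q * ((t + 1) * (t + 1)) = q * (t * t) + q * (2 * t + 1) := by ring
      omega
    have h2 : q * (2 * t + 1) ≤ q * q := Nat.mul_le_mul_left _ ht6
    omega
  · intro p hp hpd
    have hlt : t ≤ a + 1 := by
      by_contra hcon
      push Not at hcon
      have : (a + 2) * (a + 2) ≤ t * t := Nat.mul_le_mul (by omega) (by omega)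
      nlinarith
    have hfac : q * ((a + 1) * (a + 1)) - q * (t * t) = q * ((a + 1 - t) * (a + 1 + t)) := by
      obtain ⟨b, hb⟩ := Nat.exists_eq_add_of_le hlt
      rw [hb, ← Nat.mul_sub]
      congr 1
      have : t + b - t = b := by omega
      rw [this]
      have h3 : (t + b) * (t + b) = t * t + b * (t + b + t) := by ring
      omega
    have hpos : 0 < a + 1 - t := by
      rcases Nat.eq_zero_or_pos (a + 1 - t) with h0 | h0
      · exfalso
        rw [h0] at hfac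
        simp at hfac
        omega
      · exact h0
    rw [hfac] at hpd
    rcases (Nat.Prime.dvd_mul hp).1 hpd with h1 | h1
    · exact (Nat.le_of_dvd hqpos h1).trans (by omega)
    · rcases (Nat.Prime.dvd_mul hp).1 h1 with h2 | h2
      · exact (Nat.le_of_dvd hpos h2).trans (by omega)
      · exact (Nat.le_of_dvd (by omega) h2).trans (by omega)

/-- If each of the `k` integers `m + 1, …, m + k` (for some `m ≤ n`, `n ≥ 1`) has a prime factor
exceeding `k`, then `k ≤ 8 n ^ (2 / 5)`. -/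
theorem result : ∀ n k : ℕ, 1 ≤ n → N58724517.Erdos962Prop n k →
    (k : ℝ) ≤ 8 * (n : ℝ) ^ ((2 : ℝ) / 5) := by
  intro n k hn hadm
  by_contra hcon
  push Not at hcon
  have hn0 : (0 : ℝ) ≤ n := Nat.cast_nonneg n
  -- `k ^ 5 > 32768 n ^ 2`
  have h5 : 32768 * n ^ 2 < k ^ 5 := by
    have h1 : (8 * (n : ℝ) ^ ((2 : ℝ) / 5)) ^ 5 < (k : ℝ) ^ 5 :=
      pow_lt_pow_left₀ hcon (by positivity) (by norm_num)
    have h2 : (8 * (n : ℝ) ^ ((2 : ℝ) / 5)) ^ 5 = 32768 * (n : ℝ) ^ 2 := by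
      rw [mul_pow, ← Real.rpow_natCast ((n : ℝ) ^ ((2 : ℝ) / 5)) 5, ← Real.rpow_mul hn0]
      norm_num
    rw [h2] at h1
    exact_mod_cast h1
  obtain ⟨m, hm, hrun⟩ := hadm
  have hkpos : 1 ≤ k := by
    rcases Nat.eq_zero_or_pos k with h0 | h0
    · subst h0; simp at h5
    · exact h0
  have hm5 : 32768 * m ^ 2 < k ^ 5 :=
    lt_of_le_of_lt (Nat.mul_le_mul_left _ (Nat.pow_le_pow_left hm 2)) h5
  rcases Nat.lt_or_ge m k with hlt | hge
  · obtain ⟨p, hp, hkp, hpd⟩ := hrun 1 ⟨le_rfl, hkpos⟩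
    have := Nat.le_of_dvd (by omega) hpd
    omega
  · obtain ⟨N, hN1, hN2, hN3⟩ := exists_smooth m k hge hm5
    obtain ⟨p, hp, hkp, hpd⟩ := hrun (N - m) ⟨by omega, by omega⟩
    have : m + (N - m) = N := by omega
    rw [this] at hpd
    have := hN3 p hp hpd
    omega

end Pool.Agent.Results.MP_b30ba5_nt.TwoFifths
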